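import Mathlib

set_option autoImplicit false

/-!
# A shift equivalence of small lag between Baker's matrices for `k = j ^ 2 - 1`
-/

namespace Pool.Agent.H329.BL

open Matrix

/-- the entries of the matrices `S` -/
def xy (y₀ b c : ℤ) : ℕ → ℤ × ℤ
  | 0 => (-1, y₀)
  | s + 1 => ((xy y₀ b c s).1 + b * (xy y₀ b c s).2, (xy y₀ b c s).2 + c * (xy y₀ b c s).1)

def AZ (b c : ℤ) : Matrix (Fin 2) (Fin 2) ℤ := !![1, b * c; 1, 1]
def BZ (b c : ℤ) : Matrix (Fin 2) (Fin 2) ℤ := !![1, b; c, 1]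
def RZ (z b c : ℤ) : Matrix (Fin 2) (Fin 2) ℤ := !![c, b * z; z, 1]
def SZ (y₀ b c : ℤ) (s : ℕ) : Matrix (Fin 2) (Fin 2) ℤ :=
  !![(xy y₀ b c s).1, b * (xy y₀ b c s).2; (xy y₀ b c s).2, c * (xy y₀ b c s).1]

theorem SZ_succ (y₀ b c : ℤ) (s : ℕ) : SZ y₀ b c (s + 1) = BZ b c * SZ y₀ b c s := by
  ext i l
  fin_cases i <;> fin_cases l <;> simp [SZ, BZ, Matrix.mul_apply, Fin.sum_univ_two, xy] <;> ring

theorem AR (z b c : ℤ) : AZ b c * RZ z b c = RZ z b c * BZ b c := by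
  ext i l
  fin_cases i <;> fin_cases l <;> simp [AZ, BZ, RZ, Matrix.mul_apply, Fin.sum_univ_two] <;> ring

theorem SA (y₀ b c : ℤ) (s : ℕ) : SZ y₀ b c s * AZ b c = BZ b c * SZ y₀ b c s := by
  ext i l
  fin_cases i <;> fin_cases l <;> simp [AZ, BZ, SZ, Matrix.mul_apply, Fin.sum_univ_two] <;> ring

theorem RS_of (z y₀ b c : ℤ) (n : ℕ) (h1 : RZ z b c * SZ y₀ b c 0 = AZ b c ^ n)
    (h2 : SZ y₀ b c 0 * RZ z b c = BZ b c ^ n) (s : ℕ) :
    RZ z b c * SZ y₀ b c s = AZ b c ^ (s + n) ∧ SZ y₀ b c s * RZ z b c = BZ b c ^ (s + n) := by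
  induction s with
  | zero => rw [zero_add]; exact ⟨h1, h2⟩
  | succ s ih =>
    obtain ⟨h1, h2⟩ := ih
    rw [SZ_succ, show s + 1 + n = s + n + 1 by ring]
    constructor
    · rw [← Matrix.mul_assoc, ← AR, Matrix.mul_assoc, h1, ← pow_succ']
    · rw [Matrix.mul_assoc, h2, ← pow_succ']

theorem RS (j b c : ℤ) (hb : b = j ^ 2 - 1) (hc : c = j ^ 2 - 2) (s : ℕ) :
    RZ (j - 1) b c * SZ (j + 1) b c s = AZ b c ^ (s + 2) ∧
      SZ (j + 1) b c s * RZ (j - 1) b c = BZ b c ^ (s + 2) := by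
  apply RS_of
  · subst hb hc
    rw [sq (AZ _ _)]
    ext i l
    fin_cases i <;> fin_cases l <;>
      simp [AZ, RZ, SZ, Matrix.mul_apply, Fin.sum_univ_two, xy] <;> ring
  · subst hb hc
    rw [sq (BZ _ _)]
    ext i l
    fin_cases i <;> fin_cases l <;>
      simp [BZ, RZ, SZ, Matrix.mul_apply, Fin.sum_univ_two, xy] <;> ring

theorem bern (u : ℝ) (hu : 0 ≤ u) (s : ℕ) :
    1 + s * u + s * (s - 1) / 2 * u ^ 2 ≤ (1 + u) ^ s := by
  induction s with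
  | zero => simp
  | succ s ih =>
    rw [pow_succ]
    have h1 : (1 + s * u + s * (s - 1) / 2 * u ^ 2) * (1 + u) ≤ (1 + u) ^ s * (1 + u) :=
      mul_le_mul_of_nonneg_right ih (by linarith)
    refine le_trans ?_ h1
    push_cast
    have h2 : 0 ≤ (s : ℝ) * (s - 1) / 2 * u ^ 3 := by
      rcases Nat.eq_zero_or_pos s with h | h
      · rw [h]; simp
      · have h3 : (1 : ℝ) ≤ s := by exact_mod_cast h
        have h4 : (0 : ℝ) ≤ s - 1 := by linarith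
        positivity
    nlinarith

theorem GH (y₀ b c : ℤ) (q : ℝ) (hq : q ^ 2 = b * c) (s : ℕ) :
    q * (xy y₀ b c s).1 + b * (xy y₀ b c s).2 = (1 + q) ^ s * (-q + b * y₀) ∧
    q * (xy y₀ b c s).1 - b * (xy y₀ b c s).2 = (1 - q) ^ s * (-q - b * y₀) := by
  induction s with
  | zero => simp [xy]
  | succ s ih =>
    obtain ⟨h1, h2⟩ := ih
    simp only [xy]
    push_cast
    constructor
    · rw [pow_succ]
      linear_combination (1 + q) * h1 - ((xy y₀ b c s).1 : ℝ) * hq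
    · rw [pow_succ]
      linear_combination (1 - q) * h2 + ((xy y₀ b c s).1 : ℝ) * hq

/-- the sign of the entries -/
theorem pos_of (y₀ b c : ℤ) (q : ℝ) (hq : q ^ 2 = b * c) (hq1 : 1 < q) (hb : (0 : ℝ) < b)
    (hy : (0 : ℝ) < y₀) (s : ℕ)
    (key2 : (q - 1) ^ s * (b * y₀ + q) ≤ (q + 1) ^ s * (b * y₀ - q)) :
    0 ≤ (xy y₀ b c s).1 ∧ 0 ≤ (xy y₀ b c s).2 := by
  obtain ⟨g1, g2⟩ := GH y₀ b c q hq s
  have hby : 0 < (b : ℝ) * y₀ := mul_pos hb hy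
  have habs : |(1 - q) ^ s * (-q - b * y₀)| = (q - 1) ^ s * (b * y₀ + q) := by
    rw [abs_mul, abs_pow, abs_of_neg (by linarith : 1 - q < 0), neg_sub,
      abs_of_neg (by linarith : -q - (b : ℝ) * y₀ < 0)]
    ring
  have h6 := abs_le.1 (le_of_eq habs)
  have e : (1 + q) ^ s * (-q + b * y₀) = (q + 1) ^ s * (b * y₀ - q) := by
    rw [add_comm 1 q]; ring
  rw [e] at g1
  constructor
  · have h7 : 0 ≤ q * ((xy y₀ b c s).1 : ℝ) := by
      have := h6.1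
      linarith [g1, g2, key2]
    have h8 : (0 : ℝ) ≤ (xy y₀ b c s).1 := nonneg_of_mul_nonneg_right h7 (by linarith)
    exact_mod_cast h8
  · have h7 : 0 ≤ b * ((xy y₀ b c s).2 : ℝ) := by
      have := h6.2
      linarith [g1, g2, key2]
    have h8 : (0 : ℝ) ≤ (xy y₀ b c s).2 := nonneg_of_mul_nonneg_right h7 hb
    exact_mod_cast h8

theorem pos (m : ℕ) (j b c : ℤ) (hj : j = m + 2) (hb : b = j ^ 2 - 1) (hc : c = j ^ 2 - 2) :
    0 ≤ (xy (j + 1) b c (m + 1)).1 ∧ 0 ≤ (xy (j + 1) b c (m + 1)).2 := by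
  have hjR : (j : ℝ) = m + 2 := by rw [hj]; push_cast; ring
  have hm : (0 : ℝ) ≤ m := Nat.cast_nonneg m
  have hj2 : (2 : ℝ) ≤ j := by linarith
  have hbR : (b : ℝ) = j ^ 2 - 1 := by rw [hb]; push_cast; ring
  have hcR : (c : ℝ) = j ^ 2 - 2 := by rw [hc]; push_cast; ring
  have hb3 : (3 : ℝ) ≤ b := by nlinarith
  have hc2 : (2 : ℝ) ≤ c := by nlinarith
  set q : ℝ := √((b : ℝ) * c) with hqdef
  have hq2 : q ^ 2 = b * c := Real.sq_sqrt (by positivity)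
  have hq0 : 0 ≤ q := Real.sqrt_nonneg _
  have hqc : (c : ℝ) < q := by
    apply lt_of_pow_lt_pow_left₀ 2 hq0
    rw [hq2]; nlinarith
  have hqb : q < b := by
    apply lt_of_pow_lt_pow_left₀ 2 (by linarith)
    rw [hq2]; nlinarith
  have hq1 : 1 < q := by linarith
  have hbj : 0 < (b : ℝ) * (j + 1) - q := by nlinarith
  set u : ℝ := 2 / (q - 1) with hu
  have hu0 : 0 ≤ u := by
    have : 0 < q - 1 := by linarith
    positivity
  have hne : q - 1 ≠ 0 := by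
    intro h; linarith
  have huq : (q - 1) * u = 2 := by
    rw [hu]; field_simp
  have hB := bern u hu0 (m + 1)
  have key : (b : ℝ) * (j + 1) + q ≤ (1 + u) ^ (m + 1) * (b * (j + 1) - q) := by
    refine le_trans ?_ (mul_le_mul_of_nonneg_right hB hbj.le)
    have hqq : 0 < (q - 1) ^ 2 := by
      have : 0 < q - 1 := by linarith
      positivity
    apply le_of_mul_le_mul_left _ hqq
    push_cast
    have e : (q - 1) ^ 2 * ((1 + ((m : ℝ) + 1) * u + ((m : ℝ) + 1) * ((m : ℝ) + 1 - 1) / 2 * u ^ 2) *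
        (b * (j + 1) - q)) - (q - 1) ^ 2 * (b * (j + 1) + q) =
        2 * (q * (4 * j - 5) + (j - 3) * b) := by
      have e1 : (q - 1) ^ 2 * u ^ 2 = 4 := by rw [← mul_pow, huq]; norm_num
      have e2 : (m : ℝ) = j - 2 := by linarith
      rw [e2]
      have e3 : (q - 1) ^ 2 * ((1 + ((j : ℝ) - 2 + 1) * u +
          ((j : ℝ) - 2 + 1) * ((j : ℝ) - 2 + 1 - 1) / 2 * u ^ 2) * (b * (j + 1) - q)) =
          ((q - 1) ^ 2 + (j - 1) * (q - 1) * ((q - 1) * u) +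
            (j - 1) * (j - 2) / 2 * ((q - 1) ^ 2 * u ^ 2)) * (b * (j + 1) - q) := by ring
      rw [e3, huq, e1]
      have e4 : q ^ 2 = (j ^ 2 - 1) * (j ^ 2 - 2) := by rw [hq2, hbR, hcR]
      rw [hbR]
      linear_combination (-(2 : ℝ) * (j - 3) - 2 * q - 2 * (j - 1) + 4 + (2 * j - 6)) * e4
    have h5 : 0 ≤ 2 * (q * (4 * j - 5) + (j - 3) * b) := by
      rcases le_or_gt (3 : ℝ) j with h | h
      · have h6 : 0 ≤ ((j : ℝ) - 3) * b := mul_nonneg (by linarith) (by linarith)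
        have h7 : 0 ≤ q * (4 * (j : ℝ) - 5) := mul_nonneg hq0 (by linarith)
        linarith
      · have h8 : m = 0 := by
          have : (m : ℝ) < 1 := by linarith
          have : m < 1 := by exact_mod_cast this
          omega
        have h9 : (j : ℝ) = 2 := by rw [hjR, h8]; norm_num
        rw [hbR, h9]
        linarith
    linarith
  have key2 : (q - 1) ^ (m + 1) * (b * (j + 1) + q) ≤ (q + 1) ^ (m + 1) * (b * (j + 1) - q) := by
    have h1 : (q + 1) ^ (m + 1) = (q - 1) ^ (m + 1) * (1 + u) ^ (m + 1) := by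
      rw [← mul_pow]; congr 1; rw [mul_add, huq]; ring
    rw [h1, mul_assoc]
    exact mul_le_mul_of_nonneg_left key (pow_nonneg (by linarith) _)
  apply pos_of (j + 1) b c q hq2 hq1 (by linarith) (by push_cast; linarith)
  push_cast
  exact key2

/-- the matrix over the integers -/
def up (M : Matrix (Fin 2) (Fin 2) ℕ) : Matrix (Fin 2) (Fin 2) ℤ :=
  (Nat.castRingHom ℤ).mapMatrix M

theorem up_of (a b c d : ℕ) : up !![a, b; c, d] = !![(a : ℤ), (b : ℤ); (c : ℤ), (d : ℤ)] := by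
  ext i l; fin_cases i <;> fin_cases l <;> simp [up]

theorem up_inj {M N : Matrix (Fin 2) (Fin 2) ℕ} (h : up M = up N) : M = N := by
  ext i l
  have h1 := congrFun (congrFun h i) l
  simpa [up] using h1

/-- passing to natural numbers -/
theorem lift (L : ℕ) (c z : ℕ) (y₀ : ℤ) (s : ℕ)
    (p1 : 0 ≤ (xy y₀ ((c + 1 : ℕ) : ℤ) c s).1) (p2 : 0 ≤ (xy y₀ ((c + 1 : ℕ) : ℤ) c s).2)
    (r1 : RZ z ((c + 1 : ℕ) : ℤ) c * SZ y₀ ((c + 1 : ℕ) : ℤ) c s = AZ ((c + 1 : ℕ) : ℤ) c ^ L)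
    (r2 : SZ y₀ ((c + 1 : ℕ) : ℤ) c s * RZ z ((c + 1 : ℕ) : ℤ) c = BZ ((c + 1 : ℕ) : ℤ) c ^ L) :
    ∃ R S : Matrix (Fin 2) (Fin 2) ℕ,
      (!![1, (c + 1) * c; 1, 1] : Matrix (Fin 2) (Fin 2) ℕ) ^ L = R * S ∧
      (!![1, c + 1; c, 1] : Matrix (Fin 2) (Fin 2) ℕ) ^ L = S * R ∧
      !![1, (c + 1) * c; 1, 1] * R = R * !![1, c + 1; c, 1] ∧
      S * !![1, (c + 1) * c; 1, 1] = !![1, c + 1; c, 1] * S := by
  set x := (xy y₀ ((c + 1 : ℕ) : ℤ) c s).1 with hx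
  set y := (xy y₀ ((c + 1 : ℕ) : ℤ) c s).2 with hy
  have eA : up !![1, (c + 1) * c; 1, 1] = AZ ((c + 1 : ℕ) : ℤ) c := by
    rw [up_of, AZ, Nat.cast_mul, Nat.cast_one]
  have eB : up !![1, c + 1; c, 1] = BZ ((c + 1 : ℕ) : ℤ) c := by
    rw [up_of, BZ, Nat.cast_one]
  have eR : up !![c, (c + 1) * z; z, 1] = RZ z ((c + 1 : ℕ) : ℤ) c := by
    rw [up_of, RZ, Nat.cast_mul, Nat.cast_one]
  have eS : up !![x.toNat, (c + 1) * y.toNat; y.toNat, c * x.toNat] =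
      SZ y₀ ((c + 1 : ℕ) : ℤ) c s := by
    have h1 : ((x.toNat : ℕ) : ℤ) = x := Int.toNat_of_nonneg p1
    have h2 : ((y.toNat : ℕ) : ℤ) = y := Int.toNat_of_nonneg p2
    rw [up_of, SZ, ← hx, ← hy, Nat.cast_mul, Nat.cast_mul, h1, h2]
  have hmul : ∀ M N : Matrix (Fin 2) (Fin 2) ℕ, up (M * N) = up M * up N :=
    fun M N => map_mul (Nat.castRingHom ℤ).mapMatrix M N
  have hpow : ∀ (M : Matrix (Fin 2) (Fin 2) ℕ) (n : ℕ), up (M ^ n) = up M ^ n :=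
    fun M n => map_pow (Nat.castRingHom ℤ).mapMatrix M n
  refine ⟨!![c, (c + 1) * z; z, 1],
    !![x.toNat, (c + 1) * y.toNat; y.toNat, c * x.toNat], ?_, ?_, ?_, ?_⟩
  · apply up_inj
    rw [hpow, hmul, eA, eR, eS, r1]
  · apply up_inj
    rw [hpow, hmul, eB, eR, eS, r2]
  · apply up_inj
    rw [hmul, hmul, eA, eB, eR, AR]
  · apply up_inj
    rw [hmul, hmul, eA, eB, eS, SA]

theorem small_lag (j k : ℕ) (hj : 2 ≤ j) (hk : k + 1 = j ^ 2) :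
    ∃ R S : Matrix (Fin 2) (Fin 2) ℕ,
      (!![1, k * (k - 1); 1, 1] : Matrix (Fin 2) (Fin 2) ℕ) ^ (j + 1) = R * S ∧
      (!![1, k; k - 1, 1] : Matrix (Fin 2) (Fin 2) ℕ) ^ (j + 1) = S * R ∧
      !![1, k * (k - 1); 1, 1] * R = R * !![1, k; k - 1, 1] ∧
      S * !![1, k * (k - 1); 1, 1] = !![1, k; k - 1, 1] * S := by
  obtain ⟨m, rfl⟩ : ∃ m, j = m + 2 := ⟨j - 2, by omega⟩
  have hk1 : 1 ≤ k := by nlinarith
  obtain ⟨c, rfl⟩ : ∃ c, k = c + 1 := ⟨k - 1, by omega⟩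
  simp only [Nat.add_sub_cancel]
  set J : ℤ := (m : ℤ) + 2 with hJ
  have hb : (((c + 1 : ℕ) : ℤ)) = J ^ 2 - 1 := by
    have : ((c + 1 + 1 : ℕ) : ℤ) = (((m + 2) ^ 2 : ℕ) : ℤ) := by rw [hk]
    push_cast at this ⊢
    linarith
  have hc : (c : ℤ) = J ^ 2 - 2 := by push_cast at hb; linarith
  obtain ⟨p1, p2⟩ := pos m J ((c + 1 : ℕ) : ℤ) c hJ hb hc
  obtain ⟨r1, r2⟩ := RS J ((c + 1 : ℕ) : ℤ) c hb hc (m + 1)
  have hJ1 : J - 1 = ((m + 1 : ℕ) : ℤ) := by rw [hJ]; push_cast; ring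
  rw [hJ1] at r1 r2
  exact lift (m + 2 + 1) c (m + 1) (J + 1) (m + 1) p1 p2 r1 r2

end Pool.Agent.H329.BL
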