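import Pool.Agent.H329.BL.Poly

set_option autoImplicit false

/-!
# Shift equivalences with polynomial entries between `[[t, b c], [1, t]]` and `[[t, b], [c, t]]`
-/

namespace Pool.Agent.H329.BL

open Polynomial

/-- the coefficients of `(t + √D) ^ L` -/
noncomputable def XY (t D : ℚ[X]) : ℕ → ℚ[X] × ℚ[X]
  | 0 => (1, 0)
  | L + 1 => (t * (XY t D L).1 + D * (XY t D L).2, (XY t D L).1 + t * (XY t D L).2)

theorem XY_norm (t D : ℚ[X]) (L : ℕ) :
    (XY t D L).1 ^ 2 - D * (XY t D L).2 ^ 2 = (t ^ 2 - D) ^ L := by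
  induction L with
  | zero => simp [XY]
  | succ L ih =>
    rw [pow_succ (t ^ 2 - D) L, ← ih]
    simp only [XY]
    ring

theorem XY_deg (t D : ℚ[X]) (ht : 2 * t.natDegree ≤ D.natDegree) (L : ℕ) :
    2 * (XY t D L).1.natDegree ≤ L * D.natDegree ∧
    2 * (D * (XY t D L).2).natDegree ≤ (L + 1) * D.natDegree := by
  induction L with
  | zero => simp [XY]
  | succ L ih =>
    obtain ⟨h1, h2⟩ := ih
    simp only [XY]
    have h6 : (L + 1) * D.natDegree = L * D.natDegree + D.natDegree := by ring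
    have h4 : (L + 1 + 1) * D.natDegree = L * D.natDegree + 2 * D.natDegree := by ring
    constructor
    · have h3 := natDegree_add_le (t * (XY t D L).1) (D * (XY t D L).2)
      have h5 := natDegree_mul_le (p := t) (q := (XY t D L).1)
      rcases le_max_iff.1 h3 with h | h <;> omega
    · have e : D * ((XY t D L).1 + t * (XY t D L).2) =
        D * (XY t D L).1 + t * (D * (XY t D L).2) := by ring
      rw [e]
      have h3 := natDegree_add_le (D * (XY t D L).1) (t * (D * (XY t D L).2))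
      have h5 := natDegree_mul_le (p := D) (q := (XY t D L).1)
      have h7 := natDegree_mul_le (p := t) (q := D * (XY t D L).2)
      rcases le_max_iff.1 h3 with h | h <;> omega

theorem XY_sum (t D : ℚ[X]) (ht : 2 * t.natDegree ≤ D.natDegree) (hD : D ≠ 0) (L : ℕ) :
    ((XY t D L).1 ^ 2 + D * (XY t D L).2 ^ 2).natDegree ≤ L * D.natDegree := by
  obtain ⟨h1, h2⟩ := XY_deg t D ht L
  refine (natDegree_add_le _ _).trans (max_le ?_ ?_)
  · rw [natDegree_pow]; exact h1
  · rcases eq_or_ne (XY t D L).2 0 with h0 | h0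
    · rw [h0]; simp
    · rw [natDegree_mul hD (pow_ne_zero 2 h0), natDegree_pow]
      rw [natDegree_mul hD h0] at h2
      have h6 : (L + 1) * D.natDegree = L * D.natDegree + D.natDegree := by ring
      omega

theorem deg_le (b c w z : ℚ[X]) (hb : 0 ≤ b.leadingCoeff) (hc : 0 ≤ c.leadingCoeff) :
    (c * w ^ 2 - b * z ^ 2).natDegree ≤ (c * w ^ 2 + b * z ^ 2).natDegree := by
  rw [(add_lc (mul_lc hc (sq_lc w)) (mul_lc hb (sq_lc z))).1]
  exact natDegree_sub_le _ _

theorem deg_Q {t D : ℚ[X]} (ht : 2 * t.natDegree < D.natDegree) :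
    (D - t ^ 2).natDegree = D.natDegree := by
  apply natDegree_sub_eq_left_of_natDegree_lt
  rw [natDegree_pow]; exact ht

/-- there is no cancellation in the determinant of the matrix `R` of a shift equivalence -/
theorem balanced (t b c w z x y : ℚ[X]) (L : ℕ) (hb : 0 ≤ b.leadingCoeff)
    (hc : 0 ≤ c.leadingCoeff)
    (hw : 0 ≤ w.leadingCoeff) (hz : 0 ≤ z.leadingCoeff) (hx : 0 ≤ x.leadingCoeff)
    (hy : 0 ≤ y.leadingCoeff) (ht : 2 * t.natDegree < (b * c).natDegree)
    (hX : c * w * x + b * z * y = (XY t (b * c) L).1) (hY : w * y + z * x = (XY t (b * c) L).2) :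
    c * w ^ 2 - b * z ^ 2 ≠ 0 ∧ (c * w ^ 2 - b * z ^ 2) ∣ (b * c - t ^ 2) ^ L ∧
      (c * w ^ 2 + b * z ^ 2).natDegree ≤ (c * w ^ 2 - b * z ^ 2).natDegree := by
  have hD : b * c ≠ 0 := fun h => by rw [h] at ht; simp at ht
  have hP := deg_Q ht
  have hP0 : b * c - t ^ 2 ≠ 0 := fun h => by rw [h] at hP; simp at hP; omega
  have h1 : (c * w ^ 2 - b * z ^ 2) * (c * x ^ 2 - b * y ^ 2) = (-1) ^ L * (b * c - t ^ 2) ^ L := by
    rw [← mul_pow, show -1 * (b * c - t ^ 2) = t ^ 2 - b * c by ring, ← XY_norm, ← hX, ← hY]; ring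
  have h2 : (c * w ^ 2 + b * z ^ 2) * (c * x ^ 2 + b * y ^ 2) + 4 * (b * c * (w * z) * (x * y)) =
      (XY t (b * c) L).1 ^ 2 + b * c * (XY t (b * c) L).2 ^ 2 := by
    rw [← hX, ← hY]; ring
  have hn : (-1 : ℚ[X]) ^ L * (b * c - t ^ 2) ^ L ≠ 0 :=
    mul_ne_zero (pow_ne_zero _ (by norm_num)) (pow_ne_zero _ hP0)
  have hn1 : c * w ^ 2 - b * z ^ 2 ≠ 0 := fun h => hn (by rw [← h1, h, zero_mul])
  have hn2 : c * x ^ 2 - b * y ^ 2 ≠ 0 := fun h => hn (by rw [← h1, h, mul_zero])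
  have hs1 := add_lc (mul_lc hc (sq_lc w)) (mul_lc hb (sq_lc z))
  have hs2 := add_lc (mul_lc hc (sq_lc x)) (mul_lc hb (sq_lc y))
  have h3 : ((c * w ^ 2 + b * z ^ 2) * (c * x ^ 2 + b * y ^ 2)).natDegree ≤
      L * (b * c).natDegree := by
    refine le_trans ?_ (XY_sum t (b * c) ht.le hD L)
    rw [← h2]
    refine le_add_left (mul_lc hs1.2 hs2.2) ?_
    have h4 : 0 ≤ (b * c * (w * z) * (x * y)).leadingCoeff :=
      mul_lc (mul_lc (mul_lc hb hc) (mul_lc hw hz)) (mul_lc hx hy)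
    have h5 : (4 : ℚ[X]) = C 4 := rfl
    rw [h5, leadingCoeff_mul, leadingCoeff_C]
    linarith
  have h4 : (c * w ^ 2 - b * z ^ 2).natDegree + (c * x ^ 2 - b * y ^ 2).natDegree =
      L * (b * c).natDegree := by
    rw [← natDegree_mul hn1 hn2, h1, natDegree_mul (pow_ne_zero _ (by norm_num))
      (pow_ne_zero _ hP0), natDegree_pow, natDegree_pow, hP]
    simp
  have h5 := deg_le b c w z hb hc
  have h6 := deg_le b c x y hb hc
  have hdvd : (c * w ^ 2 - b * z ^ 2) ∣ (b * c - t ^ 2) ^ L :=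
    ⟨(-1) ^ L * (c * x ^ 2 - b * y ^ 2), by
      calc (b * c - t ^ 2) ^ L = (-1) ^ L * ((-1) ^ L * (b * c - t ^ 2) ^ L) := by
            rw [← mul_assoc, ← mul_pow]; norm_num
        _ = _ := by rw [← h1]; ring⟩
  refine ⟨hn1, hdvd, ?_⟩
  rcases eq_or_ne (c * w ^ 2 + b * z ^ 2) 0 with h7 | h7
  · rw [h7]; simp
  rcases eq_or_ne (c * x ^ 2 + b * y ^ 2) 0 with h8 | h8
  · exfalso
    have hcx : c * x ^ 2 = 0 := by
      by_contra hne
      have hpos : 0 < (c * x ^ 2).leadingCoeff :=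
        lt_of_le_of_ne (mul_lc hc (sq_lc x)) (leadingCoeff_ne_zero.2 hne).symm
      have e1 : b * y ^ 2 = -(c * x ^ 2) := by linear_combination h8
      have e2 := mul_lc hb (sq_lc y)
      rw [e1, leadingCoeff_neg] at e2
      linarith
    have hby : b * y ^ 2 = 0 := by linear_combination h8 - hcx
    exact hn2 (by rw [hcx, hby, sub_zero])
  rw [natDegree_mul h7 h8] at h3
  omega

/-- odd degrees -/
theorem odd_case {b c w z : ℚ[X]} (hb : 0 ≤ b.leadingCoeff) (hc : 0 ≤ c.leadingCoeff)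
    (hb1 : Odd b.natDegree) (hc1 : Odd c.natDegree) (h0 : c * w ^ 2 - b * z ^ 2 ≠ 0)
    (he : Even (c * w ^ 2 - b * z ^ 2).natDegree)
    (h : (c * w ^ 2 + b * z ^ 2).natDegree ≤ (c * w ^ 2 - b * z ^ 2).natDegree) : False := by
  have h1 := le_antisymm h (deg_le b c w z hb hc)
  rw [(add_lc (mul_lc hc (sq_lc w)) (mul_lc hb (sq_lc z))).1] at h1
  rw [← h1] at he
  have hb0 : b ≠ 0 := fun h => by rw [h] at hb1; simp at hb1
  have hc0 : c ≠ 0 := fun h => by rw [h] at hc1; simp at hc1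
  have odd_of : ∀ {p q : ℚ[X]}, p ≠ 0 → q ≠ 0 → Odd p.natDegree → Odd (p * q ^ 2).natDegree := by
    intro p q hp hq ho
    rw [natDegree_mul hp (pow_ne_zero 2 hq), natDegree_pow]
    exact ho.add_even (even_two_mul _)
  rcases eq_or_ne w 0 with rfl | hw
  · rcases eq_or_ne z 0 with rfl | hz
    · simp at h0
    · have h2 := odd_of hb0 hz hb1
      have h3 : max (c * (0 : ℚ[X]) ^ 2).natDegree (b * z ^ 2).natDegree = (b * z ^ 2).natDegree := by
        simp
      rw [h3] at he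
      exact (Nat.not_even_iff_odd.2 h2) he
  · have h2 := odd_of hc0 hw hc1
    rcases eq_or_ne z 0 with rfl | hz
    · have h3 : max (c * w ^ 2).natDegree (b * (0 : ℚ[X]) ^ 2).natDegree = (c * w ^ 2).natDegree := by
        simp
      rw [h3] at he
      exact (Nat.not_even_iff_odd.2 h2) he
    · have h4 := odd_of hb0 hz hb1
      rcases max_choice (c * w ^ 2).natDegree (b * z ^ 2).natDegree with h5 | h5
      · rw [h5] at he; exact (Nat.not_even_iff_odd.2 h2) he
      · rw [h5] at he; exact (Nat.not_even_iff_odd.2 h4) he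

/-- one step of the descent -/
theorem step {t b c w z z' : ℚ[X]} (hb : 0 < b.leadingCoeff) (hc : 0 < c.leadingCoeff)
    (hb1 : 0 < b.natDegree) (hc1 : 0 < c.natDegree)
    (ht : 2 * t.natDegree < b.natDegree + c.natDegree) (hQ : Prime (b * c - t ^ 2))
    (hz' : z' = z ∨ z' = -z) (hdvd : (b * c - t ^ 2) ∣ c * w - t * z')
    (h0 : c * w ^ 2 - b * z ^ 2 ≠ 0)
    (h : (c * w ^ 2 + b * z ^ 2).natDegree ≤ (c * w ^ 2 - b * z ^ 2).natDegree) :
    ∃ w1 z1 : ℚ[X], c * w1 ^ 2 - b * z1 ^ 2 ≠ 0 ∧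
      (c * w1 ^ 2 - b * z1 ^ 2) ∣ (c * w ^ 2 - b * z ^ 2) ∧
      (c * w1 ^ 2 + b * z1 ^ 2).natDegree ≤ (c * w1 ^ 2 - b * z1 ^ 2).natDegree ∧
      (c * w1 ^ 2 - b * z1 ^ 2).natDegree < (c * w ^ 2 - b * z ^ 2).natDegree := by
  have hb0 : b ≠ 0 := fun h => by rw [h] at hb1; simp at hb1
  have hc0 : c ≠ 0 := fun h => by rw [h] at hc1; simp at hc1
  have hzz : z' ^ 2 = z ^ 2 := by rcases hz' with rfl | rfl <;> ring
  have hdD : (b * c).natDegree = b.natDegree + c.natDegree := natDegree_mul hb0 hc0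
  have hPd : (b * c - t ^ 2).natDegree = (b * c).natDegree := deg_Q (by rw [hdD]; exact ht)
  obtain ⟨z1, hz1⟩ := hdvd
  have h1 : (b * c - t ^ 2) ∣ b * z' - t * w := by
    have h2 : (b * c - t ^ 2) ∣ c * (b * z' - t * w) :=
      ⟨z' - t * z1, by linear_combination hz1 * (-t)⟩
    rcases hQ.dvd_or_dvd h2 with h3 | h3
    · exfalso
      have h4 := natDegree_le_of_dvd h3 hc0
      omega
    · exact h3
  obtain ⟨w1, hw1⟩ := h1
  have hw : w = t * w1 + b * z1 := by
    apply mul_left_cancel₀ hQ.ne_zero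
    linear_combination t * hw1 + b * hz1
  have hzz1 : z' = c * w1 + t * z1 := by
    apply mul_left_cancel₀ hQ.ne_zero
    linear_combination c * hw1 + t * hz1
  have e1 : c * w ^ 2 - b * z ^ 2 = (b * c - t ^ 2) * -(c * w1 ^ 2 - b * z1 ^ 2) := by
    rw [← hzz, hw, hzz1]; ring
  have e2 : c * w ^ 2 + b * z ^ 2 =
      (b * c + t ^ 2) * (c * w1 ^ 2 + b * z1 ^ 2) + 4 * (b * c) * (t * (w1 * z1)) := by
    rw [← hzz, hw, hzz1]; ring
  have hm0 : c * w1 ^ 2 - b * z1 ^ 2 ≠ 0 := fun h => h0 (by rw [e1, h]; ring)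
  have hdeg : (c * w ^ 2 - b * z ^ 2).natDegree =
      (b * c).natDegree + (c * w1 ^ 2 - b * z1 ^ 2).natDegree := by
    rw [e1, natDegree_mul hQ.ne_zero (neg_ne_zero.2 hm0), natDegree_neg, hPd]
  refine ⟨w1, z1, hm0, ⟨-(b * c - t ^ 2), by rw [e1]; ring⟩, ?_, by omega⟩
  by_contra hcon
  push Not at hcon
  have hs := add_lc (mul_lc hc.le (sq_lc w1)) (mul_lc hb.le (sq_lc z1))
  have hs0 : c * w1 ^ 2 + b * z1 ^ 2 ≠ 0 := fun h => by rw [h] at hcon; simp at hcon
  have hD1 : (b * c + t ^ 2).natDegree = (b * c).natDegree := by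
    apply natDegree_add_eq_left_of_natDegree_lt
    rw [natDegree_pow, hdD]; exact ht
  have hD10 : b * c + t ^ 2 ≠ 0 := fun h => by
    rw [h] at hD1; simp at hD1; omega
  have hlt : (4 * (b * c) * (t * (w1 * z1))).natDegree <
      ((b * c + t ^ 2) * (c * w1 ^ 2 + b * z1 ^ 2)).natDegree := by
    rw [natDegree_mul hD10 hs0, hD1, hs.1]
    have h5 : (4 * (b * c) * (t * (w1 * z1))).natDegree ≤
        (b * c).natDegree + (t.natDegree + (w1 * z1).natDegree) := by
      have h6 : (4 : ℚ[X]) = C 4 := rfl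
      rw [h6, mul_assoc]
      refine (natDegree_C_mul_le _ _).trans (natDegree_mul_le.trans ?_)
      exact Nat.add_le_add_left natDegree_mul_le _
    rcases eq_or_ne w1 0 with hw0 | hw0
    · rcases eq_or_ne z1 0 with hz0 | hz0
      · exfalso; apply hs0; rw [hw0, hz0]; ring
      · have h7 : (4 * (b * c) * (t * (w1 * z1))).natDegree = 0 := by rw [hw0]; simp
        have h8 : (b * z1 ^ 2).natDegree = b.natDegree + 2 * z1.natDegree := by
          rw [natDegree_mul hb0 (pow_ne_zero 2 hz0), natDegree_pow]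
        have h9 := le_max_right (c * w1 ^ 2).natDegree (b * z1 ^ 2).natDegree
        omega
    · have h8 : (c * w1 ^ 2).natDegree = c.natDegree + 2 * w1.natDegree := by
        rw [natDegree_mul hc0 (pow_ne_zero 2 hw0), natDegree_pow]
      have h9 := le_max_left (c * w1 ^ 2).natDegree (b * z1 ^ 2).natDegree
      rcases eq_or_ne z1 0 with hz0 | hz0
      · have h7 : (4 * (b * c) * (t * (w1 * z1))).natDegree = 0 := by rw [hz0]; simp
        omega
      · have h7 : (w1 * z1).natDegree = w1.natDegree + z1.natDegree := natDegree_mul hw0 hz0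
        have h10 : (b * z1 ^ 2).natDegree = b.natDegree + 2 * z1.natDegree := by
          rw [natDegree_mul hb0 (pow_ne_zero 2 hz0), natDegree_pow]
        have h11 := le_max_right (c * w1 ^ 2).natDegree (b * z1 ^ 2).natDegree
        omega
  have h12 : (c * w ^ 2 + b * z ^ 2).natDegree =
      (b * c).natDegree + (c * w1 ^ 2 + b * z1 ^ 2).natDegree := by
    rw [e2, natDegree_add_eq_left_of_natDegree_lt hlt, natDegree_mul hD10 hs0, hD1]
  omega

/-- the case of an irreducible polynomial `b c - t ^ 2` -/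
theorem irr_case {t b c : ℚ[X]} (hb : 0 < b.leadingCoeff) (hc : 0 < c.leadingCoeff)
    (hb1 : 0 < b.natDegree) (hc1 : 0 < c.natDegree)
    (ht : 2 * t.natDegree < b.natDegree + c.natDegree) (hQ : Prime (b * c - t ^ 2)) (L : ℕ) :
    ∀ (n : ℕ) (w z : ℚ[X]), (c * w ^ 2 - b * z ^ 2).natDegree ≤ n →
      c * w ^ 2 - b * z ^ 2 ≠ 0 → (c * w ^ 2 - b * z ^ 2) ∣ (b * c - t ^ 2) ^ L →
      (c * w ^ 2 + b * z ^ 2).natDegree ≤ (c * w ^ 2 - b * z ^ 2).natDegree → False := by
  have hb0 : b ≠ 0 := fun h => by rw [h] at hb1; simp at hb1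
  have hc0 : c ≠ 0 := fun h => by rw [h] at hc1; simp at hc1
  intro n
  induction n using Nat.strong_induction_on with
  | _ n ih =>
    intro w z hn h0 hd h
    by_cases hu : IsUnit (c * w ^ 2 - b * z ^ 2)
    · rw [natDegree_eq_zero_of_isUnit hu] at h
      rw [(add_lc (mul_lc hc.le (sq_lc w)) (mul_lc hb.le (sq_lc z))).1] at h
      have h1 := (le_max_left _ _).trans h
      have h2 := (le_max_right _ _).trans h
      have hw : w = 0 := by
        by_contra hw
        rw [natDegree_mul hc0 (pow_ne_zero 2 hw)] at h1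
        omega
      have hz : z = 0 := by
        by_contra hz
        rw [natDegree_mul hb0 (pow_ne_zero 2 hz)] at h2
        omega
      apply h0
      rw [hw, hz]; ring
    · obtain ⟨π, hπ, hπd⟩ := WfDvdMonoid.exists_irreducible_factor hu h0
      have h1 : π ∣ (b * c - t ^ 2) := hπ.prime.dvd_of_dvd_pow (hπd.trans hd)
      have h2 : (b * c - t ^ 2) ∣ c * w ^ 2 - b * z ^ 2 :=
        ((hπ.associated_of_dvd hQ.irreducible h1).symm.dvd).trans hπd
      have h3 : (b * c - t ^ 2) ∣ (c * w - t * z) * (c * w - t * -z) := by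
        obtain ⟨k, hk⟩ := h2
        exact ⟨c * k + z ^ 2, by linear_combination c * hk⟩
      have key : ∃ z', (z' = z ∨ z' = -z) ∧ (b * c - t ^ 2) ∣ c * w - t * z' := by
        rcases hQ.dvd_or_dvd h3 with h4 | h4
        · exact ⟨z, Or.inl rfl, h4⟩
        · exact ⟨-z, Or.inr rfl, h4⟩
      obtain ⟨z', hz', h4⟩ := key
      obtain ⟨w1, z1, g0, g1, g2, g3⟩ := step hb hc hb1 hc1 ht hQ hz' h4 h0 h
      exact ih _ (lt_of_lt_of_le g3 hn) w1 z1 le_rfl g0 (g1.trans hd) g2

theorem even_of_factors {g Q : ℚ[X]} (L : ℕ)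
    (hev : ∀ π : ℚ[X], Irreducible π → π ∣ Q → Even π.natDegree) (hg : g ∣ Q ^ L) (h0 : g ≠ 0) :
    Even g.natDegree := by
  revert hg h0
  refine UniqueFactorizationMonoid.induction_on_prime g ?_ ?_ ?_
  · intro _ h; exact absurd rfl h
  · intro a ha _ _
    rw [natDegree_eq_zero_of_isUnit ha]; exact Even.zero
  · intro a p ha hp ih hd h0
    rw [natDegree_mul hp.ne_zero ha]
    have h1 : Even p.natDegree :=
      hev p hp.irreducible (hp.dvd_of_dvd_pow (dvd_trans (dvd_mul_right p a) hd))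
    exact h1.add (ih (dvd_trans (dvd_mul_left a p) hd) ha)

/-- the hypothesis on the pair -/
def NoUniform (t b c : ℚ[X]) : Prop :=
  Irreducible (b * c - t ^ 2) ∨ (Odd b.natDegree ∧ Odd c.natDegree ∧
    ∀ π : ℚ[X], Irreducible π → π ∣ b * c - t ^ 2 → Even π.natDegree)

theorem core {t b c w z x y : ℚ[X]} (L : ℕ) (hb : 0 < b.leadingCoeff) (hc : 0 < c.leadingCoeff)
    (hb1 : 0 < b.natDegree) (hc1 : 0 < c.natDegree)
    (ht : 2 * t.natDegree < b.natDegree + c.natDegree) (hQ : NoUniform t b c)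
    (hw : 0 ≤ w.leadingCoeff) (hz : 0 ≤ z.leadingCoeff) (hx : 0 ≤ x.leadingCoeff)
    (hy : 0 ≤ y.leadingCoeff)
    (hX : c * w * x + b * z * y = (XY t (b * c) L).1) (hY : w * y + z * x = (XY t (b * c) L).2) :
    False := by
  have hb0 : b ≠ 0 := fun h => by rw [h] at hb1; simp at hb1
  have hc0 : c ≠ 0 := fun h => by rw [h] at hc1; simp at hc1
  have hdD : (b * c).natDegree = b.natDegree + c.natDegree := natDegree_mul hb0 hc0
  obtain ⟨h1, h2, h3⟩ := balanced t b c w z x y L hb.le hc.le hw hz hx hy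
    (by rw [hdD]; exact ht) hX hY
  rcases hQ with hQ | ⟨ho1, ho2, hev⟩
  · exact irr_case hb hc hb1 hc1 ht hQ.prime L _ w z le_rfl h1 h2 h3
  · exact odd_case hb.le hc.le ho1 ho2 h1 (even_of_factors L hev h2 h1) h3

end Pool.Agent.H329.BL
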