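import Mathlib

set_option autoImplicit false

/-!
# Polynomials over the rational numbers which are eventually nonnegative
-/

namespace Pool.Agent.H329.BL

open Polynomial

/-- a polynomial which is nonnegative at infinitely many natural numbers has a nonnegative leading
coefficient -/
theorem lc_of_infinite {p : ℚ[X]} (h : {x : ℕ | 0 ≤ p.eval (x : ℚ)}.Infinite) :
    0 ≤ p.leadingCoeff := by
  by_contra hc
  push Not at hc
  by_cases hd : 0 < p.degree
  · have h1 := Polynomial.tendsto_atBot_of_leadingCoeff_nonpos p hd hc.le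
    have h2 := h1.comp (tendsto_natCast_atTop_atTop (R := ℚ))
    have h3 := h2.eventually (Filter.eventually_lt_atBot 0)
    obtain ⟨N, hN⟩ := Filter.eventually_atTop.1 h3
    apply h
    refine (Set.finite_lt_nat N).subset fun x hx => ?_
    by_contra hx'
    have hx2 : N ≤ x := not_lt.1 hx'
    exact absurd hx (not_le.2 (hN x hx2))
  · have h1 : p = C (p.coeff 0) := Polynomial.eq_C_of_degree_le_zero (not_lt.1 hd)
    obtain ⟨x, hx⟩ := h.nonempty
    have h2 : 0 ≤ p.eval (x : ℚ) := hx
    rw [h1, eval_C] at h2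
    rw [h1, leadingCoeff_C] at hc
    linarith

/-- sums of polynomials with nonnegative leading coefficients -/
theorem add_lc {p q : ℚ[X]} (hp : 0 ≤ p.leadingCoeff) (hq : 0 ≤ q.leadingCoeff) :
    (p + q).natDegree = max p.natDegree q.natDegree ∧ 0 ≤ (p + q).leadingCoeff := by
  rcases eq_or_ne p 0 with rfl | hp0
  · simp [hq]
  rcases eq_or_ne q 0 with rfl | hq0
  · simp [hp]
  rcases lt_trichotomy p.natDegree q.natDegree with h | h | h
  · have h1 := natDegree_add_eq_right_of_natDegree_lt h
    refine ⟨by rw [h1, max_eq_right h.le], ?_⟩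
    rw [leadingCoeff, h1, coeff_add, coeff_eq_zero_of_natDegree_lt h, zero_add]
    exact hq
  · have h2 : (p + q).coeff q.natDegree = p.leadingCoeff + q.leadingCoeff := by
      rw [coeff_add, leadingCoeff, leadingCoeff, h]
    have h3 : 0 < p.leadingCoeff := lt_of_le_of_ne hp (leadingCoeff_ne_zero.2 hp0).symm
    have h4 : (p + q).natDegree = q.natDegree := by
      refine le_antisymm ((natDegree_add_le p q).trans (by rw [h, max_self])) ?_
      exact le_natDegree_of_ne_zero (by rw [h2]; linarith)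
    refine ⟨by rw [h4, h, max_self], ?_⟩
    rw [leadingCoeff, h4, h2]
    linarith
  · have h1 := natDegree_add_eq_left_of_natDegree_lt h
    refine ⟨by rw [h1, max_eq_left h.le], ?_⟩
    rw [leadingCoeff, h1, coeff_add, coeff_eq_zero_of_natDegree_lt h, add_zero]
    exact hp

theorem mul_lc {p q : ℚ[X]} (hp : 0 ≤ p.leadingCoeff) (hq : 0 ≤ q.leadingCoeff) :
    0 ≤ (p * q).leadingCoeff := by
  rw [leadingCoeff_mul]; exact mul_nonneg hp hq

theorem sq_lc (p : ℚ[X]) : 0 ≤ (p ^ 2).leadingCoeff := by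
  rw [leadingCoeff_pow]; positivity

theorem le_add_left {p q : ℚ[X]} (hp : 0 ≤ p.leadingCoeff) (hq : 0 ≤ q.leadingCoeff) :
    p.natDegree ≤ (p + q).natDegree := by
  rw [(add_lc hp hq).1]; exact le_max_left _ _

/-- the irreducible factors of `(f ^ 2 - f - 1) ^ L` have even degree -/
theorem even_of_prime {f π : ℚ[X]} (hπ : Prime π) (h : π ∣ f ^ 2 - f - 1) :
    Even π.natDegree := by
  have hirr : Irreducible π := hπ.irreducible
  have _ : Fact (Irreducible π) := ⟨hirr⟩
  have hfin : Module.finrank ℚ (AdjoinRoot π) = π.natDegree := by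
    have := (AdjoinRoot.powerBasis hirr.ne_zero).finrank
    rw [this, AdjoinRoot.powerBasis_dim]
  have _ : FiniteDimensional ℚ (AdjoinRoot π) :=
    (AdjoinRoot.powerBasis hirr.ne_zero).finite
  let θ : AdjoinRoot π := AdjoinRoot.mk π f
  have hθ : θ ^ 2 - θ - 1 = 0 := by
    have h1 : AdjoinRoot.mk π (f ^ 2 - f - 1) = 0 := AdjoinRoot.mk_eq_zero.2 h
    simpa [θ] using h1
  have hq : Irreducible (X ^ 2 - X - 1 : ℚ[X]) := by
    have hm : (X ^ 2 - X - 1 : ℚ[X]).natDegree = 2 := by compute_degree!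
    rw [Polynomial.irreducible_iff_roots_eq_zero_of_degree_le_three (by rw [hm]) (by rw [hm]; norm_num)]
    rw [Multiset.eq_zero_iff_forall_notMem]
    intro x hx
    have h2 : x ^ 2 - x - 1 = 0 := by
      have := (mem_roots'.1 hx).2
      simpa [IsRoot] using this
    have h3 : (2 * x - 1) ^ 2 = 5 := by linear_combination 4 * h2
    have h4 : IsSquare ((5 : ℕ) : ℚ) := ⟨2 * x - 1, by rw [← sq, h3]; norm_num⟩
    rw [Rat.isSquare_natCast_iff] at h4
    obtain ⟨m, hm'⟩ := h4
    have h5 : m ≤ 2 := by nlinarith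
    interval_cases m <;> omega
  have hmon : (X ^ 2 - X - 1 : ℚ[X]).Monic := by monicity!
  have hmin : X ^ 2 - X - 1 = minpoly ℚ θ := by
    apply minpoly.eq_of_irreducible_of_monic hq _ hmon
    simpa using hθ
  have hd := minpoly.degree_dvd (K := ℚ) (x := θ) (Algebra.IsIntegral.isIntegral θ)
  rw [← hmin, hfin] at hd
  have hm : (X ^ 2 - X - 1 : ℚ[X]).natDegree = 2 := by compute_degree!
  rw [hm] at hd
  exact (even_iff_two_dvd).2 hd

theorem even_of_dvd {f g : ℚ[X]} (L : ℕ) (hg : g ∣ (f ^ 2 - f - 1) ^ L) (h0 : g ≠ 0) :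
    Even g.natDegree := by
  revert hg h0
  refine UniqueFactorizationMonoid.induction_on_prime g ?_ ?_ ?_
  · intro _ h; exact absurd rfl h
  · intro a ha _ _
    rw [natDegree_eq_zero_of_isUnit ha]; exact Even.zero
  · intro a p ha hp ih hd h0
    rw [natDegree_mul hp.ne_zero ha]
    have h1 : Even p.natDegree :=
      even_of_prime hp (hp.dvd_of_dvd_pow (dvd_trans (dvd_mul_right p a) hd))
    exact h1.add (ih (dvd_trans (dvd_mul_left a p) hd) ha)

end Pool.Agent.H329.BL
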